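import Pool.Agent.H28.Thick

set_option autoImplicit false

namespace Pool.Agent.Results.MP_df75a5_an.NotThick

open Pool.Agent.H28.Thick

theorem result (α : ℝ) : ∃ E : Set ℕ, (∀ x ∈ E, 1 ≤ x) ∧ 0 < upperDensity E ∧
    ¬ IsThick (ret (fun t => t ^ (3 / 2 : ℝ)) E ∩ ret (fun t => α * t ^ (3 / 2 : ℝ) + t) E) :=
  not_thick α _

end Pool.Agent.Results.MP_df75a5_an.NotThick
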